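import Pool.Agent.NH49.TB.T7

set_option autoImplicit false

open scoped Manifold ContDiff Topology Pointwise
open Set Filter

namespace Pool.Agent.Results.MP_5c499f_an.NonresonantTNSGrowth

open Pool.Agent.H721R2 Pool.Agent.H789R2.AN Pool.Agent.TH289.K

/-- **Manifolds with totally nonsymplectic Anosov actions without unstable resonances.**
Let the abelian group `G` act on the closed connected manifold `M`, modelled on the
finite-dimensional space `E`, by `C¹` diffeomorphisms `α a`.  Let `χ j`, `j ∈ J`, be finitely many
homomorphisms from `G` to `ℝ` and let `F j` be fields of subspaces of the tangent spaces, such that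
the action is *totally Anosov*: every element `a` outside of the kernels of the `χ j` is an Anosov
diffeomorphism whose stable field is the sum of the `F j` with `χ j a < 0` (`negField χ F a`) and
whose unstable field is the sum of the `F j` with `χ j a > 0` (`posField χ F a`).  Assume that the
action is *totally nonsymplectic* (no `χ i` is a negative multiple of a `χ j`) and that one of the
following conditions holds.
* There is an element `b`, outside of the kernels of the `χ j`, *without unstable resonances*: if
  `χ k` and `χ l`, `l ≠ k`, are positive at `b` and `χ j` is negative at `b`, then `χ l` is not a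
  combination of `χ k` and `χ j` with nonnegative coefficients; that is, there is `a` with
  `χ k a < 0`, `χ j a < 0` and `χ l a > 0`.  (This holds for all `b` if any three of the `χ j` are
  linearly independent.)
* There are at most four `χ j`.

Then there is a surjective covering map `E → M`, where `E ≅ ℝⁿ`, `n = dim M`, the fundamental
group of `M` has polynomial growth: there is an exponent `d` such that for every finite set `S` of
elements of `π₁(M, x)` the number of products of `n` elements of `S` is at most `C (n + 1) ^ d`,
`C = C(S)`, and every element outside of the kernels has global product structure.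

(There are no conditions on the dimensions of the `F j`, no pinching conditions on the rates and no
further assumptions of regularity.) -/
theorem result (E : Type*) [NormedAddCommGroup E] [NormedSpace ℝ E] [FiniteDimensional ℝ E]
    (M : Type*) [TopologicalSpace M] [T2Space M] [CompactSpace M] [ConnectedSpace M]
    [ChartedSpace E M] [IsManifold 𝓘(ℝ, E) ∞ M] (G J : Type*) [AddCommGroup G] [Finite J]
    (α : G → Diffeomorph 𝓘(ℝ, E) 𝓘(ℝ, E) M M 1) (hα : ∀ a b x, α (a + b) x = α a (α b x))
    (χ : J → G →+ ℝ) (F : J → ∀ x : M, Submodule ℝ (TangentSpace 𝓘(ℝ, E) x))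
    (hAn : ∀ a, (∀ l, χ l a ≠ 0) → IsAnosov (α a) (negField χ F a) (posField χ F a))
    (hTNS : ∀ i j, ∀ c : ℝ, 0 < c → ∃ a, χ i a ≠ -c * χ j a)
    (h : (∃ b, (∀ l, χ l b ≠ 0) ∧ ∀ k j l, 0 < χ k b → χ j b < 0 → 0 < χ l b → l ≠ k →
      ∃ a, χ k a < 0 ∧ χ j a < 0 ∧ 0 < χ l a) ∨ Nat.card J ≤ 4) :
    (∃ π : E → M, IsCoveringMap π ∧ Function.Surjective π) ∧
    (∃ d : ℕ, ∀ (x : M) (S : Set (FundamentalGroup M x)), S.Finite →
      ∃ C : ℕ, ∀ n : ℕ, (S ^ n).ncard ≤ C * (n + 1) ^ d) ∧
    ∀ b, (∀ l, χ l b ≠ 0) → GPS (α b).toHomeomorph := by
  obtain ⟨h1, h2, h3⟩ := Pool.Agent.NH49.TB.man_final5 α hα χ F hAn hTNS h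
  exact ⟨h1, h2, fun b hb => (h3 b hb).2⟩

end Pool.Agent.Results.MP_5c499f_an.NonresonantTNSGrowth
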