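import Pool.Agent.NH49.TA.H2

set_option autoImplicit false

open scoped Manifold ContDiff Topology Pointwise
open Set Filter

namespace Pool.Agent.Results.MP_5c499f_an.SlowHolonomyGrowth

open Pool.Agent.H721R2 Pool.Agent.H789R2.AN Pool.Agent.TH289.K Pool.Agent.NH49.TA

/-- **Anosov diffeomorphisms with slowly distorting holonomies.**
Let `f` be a `C¹` Anosov diffeomorphism of a closed connected manifold `M` modelled on the
finite-dimensional space `E`.  There is a neighbourhood `𝒰₀` of the diagonal of `M × M` such that the
following holds for every neighbourhood `𝒰` of the diagonal contained in `𝒰₀`.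

Assume that the stable holonomies of `f`, or those of `f⁻¹` (the unstable holonomies of `f`), distort
slowly (`SlowHolonomy`): for every `N ≥ 1` there is `C` such that the holonomy along a stable path of
level at most `j` takes two points with unstable level at most `0` to points with unstable level at
most `j / N + C`; the level is, up to bounded errors and factors, the logarithm of the distance in
the leaf, so that the holonomy along a path of length `L` stretches by at most `C_ε L ^ ε` for every
`ε > 0`.

Then `f` is topologically transitive, it has global product structure (`GPS`), there is a surjective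
covering map `E → M`, where `E ≅ ℝⁿ`, `n = dim M`, and the fundamental group of `M` has polynomial
growth: there is an exponent `d` such that for every finite set `S` of elements of `π₁(M, x)` the
number of products of `n` elements of `S` is at most `C (n + 1) ^ d`, `C = C(S)`. -/
theorem result (E : Type*) [NormedAddCommGroup E] [NormedSpace ℝ E] [FiniteDimensional ℝ E]
    (M : Type*) [TopologicalSpace M] [T2Space M] [CompactSpace M] [ConnectedSpace M]
    [ChartedSpace E M] [IsManifold 𝓘(ℝ, E) ∞ M] (f : Diffeomorph 𝓘(ℝ, E) 𝓘(ℝ, E) M M 1)
    (Es Eu : ∀ x : M, Submodule ℝ (TangentSpace 𝓘(ℝ, E) x)) (hA : IsAnosov f Es Eu) :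
    ∃ 𝒰₀ ∈ 𝓝ˢ (diagonal M), ∀ 𝒰 ∈ 𝓝ˢ (diagonal M), 𝒰 ⊆ 𝒰₀ →
      (SlowHolonomy f.toHomeomorph 𝒰 ∨ SlowHolonomy f.toHomeomorph.symm 𝒰) →
      TopTransitive f ∧ GPS f.toHomeomorph ∧
        (∃ π : E → M, IsCoveringMap π ∧ Function.Surjective π) ∧
        ∃ d : ℕ, ∀ (x : M) (S : Set (FundamentalGroup M x)), S.Finite →
          ∃ C : ℕ, ∀ n : ℕ, (S ^ n).ncard ≤ C * (n + 1) ^ d :=
  man_slow2 f Es Eu hA

end Pool.Agent.Results.MP_5c499f_an.SlowHolonomyGrowth
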